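import Mathlib
import Pool.Agent.H16.Cea3

set_option autoImplicit false

namespace Pool.Agent.Results.MP_418eb4_lc.Yes

open Pool.Agent.H16.Cea

theorem result : ∃ (σ τ : Sig) (L : Laws σ) (M : Laws τ) (n m : ℕ), 1 ≤ n ∧ 1 ≤ m ∧
    LawsCE L ∧ LawsCE M ∧ ¬ Red (Iso L n) (Iso M m) ∧ ¬ Red (Iso M m) (Iso L n) :=
  ⟨sThree, sNone, ∅, ∅, 1, 5, le_rfl, by norm_num, lawsCE_empty _, lawsCE_empty _, notPQ, notQP⟩

end Pool.Agent.Results.MP_418eb4_lc.Yes
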